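import Pool.Agent.H50.ODG.Targets

/-! Elementary facts on the Minkowski product (MP_397744_co). -/

set_option autoImplicit false

namespace Pool.Agent.H36.ODG

open Pool.Agent.H57.CP Pool.Agent.H39.TO Pool.Agent.H39.OD Pool.Agent.H50.ODG

theorem mk_comm' (x y : V4) : mk x y = mk y x := by unfold mk; ring

theorem mk_add_right (x y z : V4) : mk x (y + z) = mk x y + mk x z := by
  unfold mk; simp only [Pi.add_apply]; ring

theorem mk_add_left (x y z : V4) : mk (x + y) z = mk x z + mk y z := by
  unfold mk; simp only [Pi.add_apply]; ring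

theorem mk_sub_right (x y z : V4) : mk x (y - z) = mk x y - mk x z := by
  unfold mk; simp only [Pi.sub_apply]; ring

theorem mk_sub_left (x y z : V4) : mk (x - y) z = mk x z - mk y z := by
  unfold mk; simp only [Pi.sub_apply]; ring

theorem mk_smul_right (c : ℝ) (x y : V4) : mk x (c • y) = c * mk x y := by
  unfold mk; simp only [Pi.smul_apply, smul_eq_mul]; ring

theorem mk_smul_left (c : ℝ) (x y : V4) : mk (c • x) y = c * mk x y := by
  unfold mk; simp only [Pi.smul_apply, smul_eq_mul]; ring

theorem mk_neg_right (x y : V4) : mk x (-y) = -mk x y := by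
  unfold mk; simp only [Pi.neg_apply]; ring

theorem mk_neg_left (x y : V4) : mk (-x) y = -mk x y := by
  unfold mk; simp only [Pi.neg_apply]; ring

theorem refl_eq (n x : V4) : refl n x = x + (2 * mk n x) • n := by
  ext i
  rfl

/-- a timelike vector in the upper half is a multiple of a point -/
theorem point_of (w : V4) (h1 : 0 < mk w w) (h2 : 0 < w 3) : ∃ z : H3, z.1 = (√(mk w w))⁻¹ • w := by
  have h3 : 0 < √(mk w w) := Real.sqrt_pos.2 h1
  refine ⟨⟨(√(mk w w))⁻¹ • w, ?_, ?_⟩, rfl⟩
  · rw [mk_smul_left, mk_smul_right, ← mul_assoc, ← mul_inv, Real.mul_self_sqrt h1.le,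
      inv_mul_cancel₀ h1.ne']
  · simp only [Pi.smul_apply, smul_eq_mul]
    positivity

end Pool.Agent.H36.ODG
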