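import Pool.Agent.H50.ODG.Targets

/-! (CL1) the class of a two-orbit polyhedron with odd vertex degrees (MP_397744_co). -/

set_option autoImplicit false

namespace Pool.Agent.H36.ODG

open Pool.Agent.H57.CP Pool.Agent.H39.TO Pool.Agent.H39.OD Pool.Agent.H50.ODG

theorem pf_CL1 (hCLS : T_CLS) (hPAR2 : T_PAR2) (hSIN : T_SIN) (hOOO : T_OOO) (hNEC : T_NEC)
    (hNO0 : T_NO0) (_hSML : T_SML) (hFLA : T_FLA) : T_CL1 := by
  intro K h1
  have hK := h1.geo
  have hT := h1.two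
  obtain ⟨Φ, Φ', f1, f1', -⟩ := hT.two
  have hadj : ∀ i, ∃ Ψ, AA K i Φ Ψ := by
    intro i
    obtain ⟨⟨a, ha, -⟩, ⟨b, hb, -⟩, ⟨c, hc, -⟩⟩ := hFLA K hK Φ f1
    fin_cases i
    · exact ⟨a, ha⟩
    · exact ⟨b, hb⟩
    · exact ⟨c, hc⟩
  have hio : ∀ i, In K i → Out K i → False := by
    intro i hin hout
    obtain ⟨Ψ, h⟩ := hadj i
    exact hout _ _ h (hin _ _ h)
  obtain ⟨hcl, j, hj⟩ := hCLS K hK hT
  -- a degree
  obtain ⟨x, hx⟩ := hK.ne
  have hq0 : (eds K x).encard ∈ DG K := ⟨x, hx, rfl⟩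
  obtain ⟨q, hqo, hq⟩ := h1.dg _ hq0
  have hqD : (q : ℕ∞) ∈ DG K := hq ▸ hq0
  have hpar := (hPAR2 K hK hT).2 q hqD hqo
  rcases hcl 1 with h | h
  · have h2 : In K 2 := hpar.1 h
    refine ⟨?_, h, h2⟩
    fin_cases j
    · exact hj
    · exact (hio 1 h hj).elim
    · exact (hio 2 h2 hj).elim
  · exfalso
    have h2 : Out K 2 := by
      rcases hcl 2 with h3 | h3
      · exact (hio 1 (hpar.2 h3) h).elim
      · exact h3
    obtain ⟨-, -, s1, s2⟩ := hSIN K hK hT
    obtain ⟨p, hp⟩ := s1 (Or.inr (Or.inl h))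
    obtain ⟨q', hq'⟩ := s2 (Or.inr (Or.inl h))
    have hqq : q' = (q : ℕ∞) := by
      have := hqD
      rw [hq'] at this
      exact this.symm
    subst hqq
    have hpt : p ≠ ⊤ := h1.fs p (by rw [hp]; rfl)
    obtain ⟨n, rfl⟩ := ENat.ne_top_iff_exists.mp hpt
    rcases hcl 0 with h0 | h0
    · exact hNO0 K n q hK hT h0 h h2 hp hq' hqo
    · have hchi := hOOO K hK hT h0 h h2
      have hty : Ty K (n : ℕ∞) (q : ℕ∞) := by
        constructor
        · intro f hf
          have : (vts f).encard ∈ FS K := ⟨f, hf, rfl⟩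
          rw [hp] at this
          exact this
        · intro y hy
          have : (eds K y).encard ∈ DG K := ⟨y, hy, rfl⟩
          rw [hq'] at this
          exact this
      obtain ⟨-, -, hA | ⟨a, b, -, hb, -⟩⟩ := hNEC K n q hK hchi hty
      · exact hpt hA
      · have hb' : q = 2 * b := by exact_mod_cast hb
        rw [hb'] at hqo
        exact (Nat.not_odd_iff_even.2 (even_two_mul b)) hqo

end Pool.Agent.H36.ODG
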