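import Pool.Agent.H36.ODG.Bas

/-! (FXM) a common point of two mirrors (MP_397744_co). -/

set_option autoImplicit false

namespace Pool.Agent.H36.ODG

open Pool.Agent.H57.CP Pool.Agent.H39.TO Pool.Agent.H39.OD Pool.Agent.H50.ODG

theorem pf_FXM (hFXP : T_FXP) (hRFX : T_RFX) : T_FXM := by
  intro n0 n1 m x h0 h1 hm hx
  obtain ⟨r0, i0, s0, -⟩ := hRFX n0 h0
  obtain ⟨r1, i1, -, -⟩ := hRFX n1 h1
  have hiso : IsIso (rf n0 * rf n1) := fun a b => by
    rw [Equiv.Perm.mul_apply, Equiv.Perm.mul_apply, i0, i1]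
  obtain ⟨z0, hz0⟩ := hFXP (rf n0 * rf n1) m x hiso hm hx
  rw [Equiv.Perm.mul_apply] at hz0
  have hinv : ∀ y, rf n0 (rf n0 y) = y := fun y => by
    rw [← Equiv.Perm.mul_apply, s0, Equiv.Perm.one_apply]
  have h01 : rf n1 z0 = rf n0 z0 := by
    rw [← hinv (rf n1 z0), hz0]
  have e0 : (rf n0 z0).1 = z0.1 + (2 * mk n0 z0.1) • n0 := by rw [r0, refl_eq]
  have e1 : (rf n0 z0).1 = z0.1 + (2 * mk n1 z0.1) • n1 := by rw [← h01, r1, refl_eq]
  set w : V4 := z0.1 + (rf n0 z0).1 with hw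
  have a0 : mk n0 w = 0 := by
    rw [hw, e0, mk_add_right, mk_add_right, mk_smul_right, h0]; ring
  have a1 : mk n1 w = 0 := by
    rw [hw, e1, mk_add_right, mk_add_right, mk_smul_right, h1]; ring
  have hpos : 0 < mk w w := by
    have b1 : mk w w = mk z0.1 z0.1 + 2 * mk z0.1 (rf n0 z0).1 +
        mk (rf n0 z0).1 (rf n0 z0).1 := by
      rw [hw, mk_add_left, mk_add_right, mk_add_right, mk_comm' (rf n0 z0).1 z0.1]; ring
    have b2 : mk z0.1 (rf n0 z0).1 = 1 + 2 * mk n0 z0.1 ^ 2 := by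
      rw [e0, mk_add_right, mk_smul_right, z0.2.1, mk_comm' z0.1 n0]; ring
    rw [b1, b2, z0.2.1, (rf n0 z0).2.1]
    positivity
  have h3 : 0 < w 3 := by
    rw [hw, Pi.add_apply]
    exact add_pos z0.2.2 (rf n0 z0).2.2
  obtain ⟨z, hz⟩ := point_of w hpos h3
  refine ⟨z, ?_, ?_⟩
  · rw [hz, mk_smul_left, mk_comm' w n0, a0, mul_zero]
  · rw [hz, mk_smul_left, mk_comm' w n1, a1, mul_zero]

end Pool.Agent.H36.ODG
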