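import Pool.Agent.H36.ODG.Bas

/-! (HT3) three half-turns (MP_397744_co). -/

set_option autoImplicit false

namespace Pool.Agent.H36.ODG

open Pool.Agent.H57.CP Pool.Agent.H39.TO Pool.Agent.H39.OD Pool.Agent.H50.ODG

/-- points which are proportional are equal -/
theorem eq_of_smul (p q : H3) (c : ℝ) (h : p.1 = c • q.1) : p = q := by
  have h1 : c ^ 2 = 1 := by
    have := p.2.1
    rw [h, mk_smul_left, mk_smul_right, q.2.1] at this
    linarith
  have h2 : 0 < c := by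
    have h3 := p.2.2
    rw [h, Pi.smul_apply, smul_eq_mul] at h3
    exact (pos_iff_pos_of_mul_pos h3).2 q.2.2
  have h3 : c = 1 := by nlinarith
  apply Subtype.ext
  rw [h, h3, one_smul]

/-- a vector orthogonal to a point is spacelike -/
theorem spacelike (x : H3) (n : V4) (h : mk n x.1 = 0) (hn : n ≠ 0) : mk n n < 0 := by
  have h1 := x.2.1
  obtain ⟨x, hx1, hx2⟩ := x
  simp only at h h1 ⊢
  unfold mk at h h1 ⊢
  by_contra hcon
  push Not at hcon
  -- Cauchy-Schwarz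
  have cs : (n 0 * x 0 + n 1 * x 1 + n 2 * x 2) ^ 2 ≤
      (n 0 ^ 2 + n 1 ^ 2 + n 2 ^ 2) * (x 0 ^ 2 + x 1 ^ 2 + x 2 ^ 2) := by
    nlinarith [sq_nonneg (n 0 * x 1 - n 1 * x 0), sq_nonneg (n 0 * x 2 - n 2 * x 0),
      sq_nonneg (n 1 * x 2 - n 2 * x 1)]
  have e1 : n 0 * x 0 + n 1 * x 1 + n 2 * x 2 = n 3 * x 3 := by linarith
  have e2 : x 0 ^ 2 + x 1 ^ 2 + x 2 ^ 2 = x 3 ^ 2 - 1 := by linarith
  rw [e1, e2] at cs
  have e3 : n 0 ^ 2 + n 1 ^ 2 + n 2 ^ 2 ≤ n 3 ^ 2 := by linarith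
  have e4 : 1 ≤ x 3 ^ 2 := by nlinarith [sq_nonneg (x 0), sq_nonneg (x 1), sq_nonneg (x 2)]
  have e5 : (n 0 ^ 2 + n 1 ^ 2 + n 2 ^ 2) * (x 3 ^ 2 - 1) ≤ n 3 ^ 2 * (x 3 ^ 2 - 1) :=
    mul_le_mul_of_nonneg_right e3 (by linarith)
  have e6 : n 3 ^ 2 ≤ 0 := by nlinarith
  have e7 : n 0 ^ 2 + n 1 ^ 2 + n 2 ^ 2 ≤ 0 := by linarith
  apply hn
  have f0 : n 0 = 0 := by nlinarith [sq_nonneg (n 0), sq_nonneg (n 1), sq_nonneg (n 2)]
  have f1 : n 1 = 0 := by nlinarith [sq_nonneg (n 0), sq_nonneg (n 1), sq_nonneg (n 2)]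
  have f2 : n 2 = 0 := by nlinarith [sq_nonneg (n 0), sq_nonneg (n 1), sq_nonneg (n 2)]
  have f3 : n 3 = 0 := by nlinarith [sq_nonneg (n 3)]
  ext i
  fin_cases i <;> assumption

/-- change of the second vector of a basis of the fixed space -/
theorem fix_change (A : V4 →ₗ[ℝ] V4) (x y z : H3) (hzx : z ≠ x)
    (hA : ∀ v, A v = v → ∃ s t : ℝ, v = s • x.1 + t • y.1) (hz : A z.1 = z.1) :
    ∀ v, A v = v → ∃ s t : ℝ, v = s • x.1 + t • z.1 := by
  obtain ⟨s0, t0, h0⟩ := hA z.1 hz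
  have ht : t0 ≠ 0 := by
    rintro rfl
    rw [zero_smul, add_zero] at h0
    exact hzx (eq_of_smul z x s0 h0)
  intro v hv
  obtain ⟨s, t, h⟩ := hA v hv
  refine ⟨s - t * s0 / t0, t / t0, ?_⟩
  rw [h, h0, smul_add, smul_smul, smul_smul, ← add_assoc, ← add_smul]
  congr 2
  · field_simp; ring
  · field_simp

theorem pf_HT3 : T_HT3 := by
  intro A B C x x' y y' z lA lB lC iA iB iC Ax Bx' Cx Cx' Ax' Bx fA fB fC Az Bz
  have hzx : z ≠ x := by
    rintro rfl
    exact Bx Bz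
  have hzx' : z ≠ x' := by
    rintro rfl
    exact Ax' Az
  have gA := fix_change A x y z hzx fA Az
  have gB := fix_change B x' y' z hzx' fB Bz
  set T : Submodule ℝ V4 := Submodule.span ℝ {x.1, x'.1, z.1} with hT
  have xT : x.1 ∈ T := Submodule.subset_span (by simp)
  have x'T : x'.1 ∈ T := Submodule.subset_span (by simp)
  have zT : z.1 ∈ T := Submodule.subset_span (by simp)
  have inv : ∀ (D : V4 →ₗ[ℝ] V4) (p q : V4), p ∈ T → q ∈ T → (∀ v, D (D v) = v) →
      (∀ v, D v = v → ∃ s t : ℝ, v = s • p + t • q) → ∀ v ∈ T, D v ∈ T := by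
    intro D p q hp hq hD hf v hv
    have h1 : D (v + D v) = v + D v := by rw [map_add, hD, add_comm]
    obtain ⟨s, t, h2⟩ := hf _ h1
    have h3 : D v = (v + D v) - v := by abel
    rw [h3, h2]
    exact T.sub_mem (T.add_mem (T.smul_mem s hp) (T.smul_mem t hq)) hv
  have TA := inv A _ _ xT zT iA gA
  have TB := inv B _ _ x'T zT iB gB
  have TC := inv C _ _ xT x'T iC fC
  have hCz : C z.1 ≠ z.1 := by
    intro h
    obtain ⟨s, t, h1⟩ := fC z.1 h
    have ht : t ≠ 0 := by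
      rintro rfl
      rw [zero_smul, add_zero] at h1
      exact hzx (eq_of_smul z x s h1)
    have h2 : x'.1 = t⁻¹ • (z.1 - s • x.1) := by
      rw [h1, add_sub_cancel_left, smul_smul, inv_mul_cancel₀ ht, one_smul]
    apply Ax'
    conv_lhs => rw [h2]
    rw [map_smul, map_sub, map_smul, Az, Ax, ← h2]
  set n' : V4 := z.1 - C z.1 with hn'
  have n0 : n' ≠ 0 := fun h => hCz (sub_eq_zero.1 h).symm
  have Cn' : C n' = -n' := by
    rw [hn', map_sub, iC]; abel
  have nx : mk n' x.1 = 0 := by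
    have h1 : mk (C z.1) x.1 = mk z.1 x.1 := by
      conv_lhs => rw [← Cx]
      rw [lC.1]
    rw [hn', mk_sub_left, h1, sub_self]
  have nx' : mk n' x'.1 = 0 := by
    have h1 : mk (C z.1) x'.1 = mk z.1 x'.1 := by
      conv_lhs => rw [← Cx']
      rw [lC.1]
    rw [hn', mk_sub_left, h1, sub_self]
  have nn := spacelike x n' nx n0
  have nz : mk n' n' = 2 * mk n' z.1 := by
    have h1 : mk n' (C z.1) = -mk n' z.1 := by
      have h2 := lC.1 n' (C z.1)
      rw [iC, Cn', mk_neg_left] at h2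
      exact h2.symm
    conv_lhs => rw [hn']
    rw [mk_sub_left, mk_comm' z.1 _, mk_comm' (C z.1) _, ← hn', h1]
    ring
  set r : ℝ := √(-mk n' n') with hr
  have hr0 : 0 < r := Real.sqrt_pos.2 (by linarith)
  have hr2 : r ^ 2 = -mk n' n' := Real.sq_sqrt (by linarith)
  have key : ∀ v : V4, refl (r⁻¹ • n') v = v + (2 * mk n' v / (-mk n' n')) • n' := by
    intro v
    rw [refl_eq, mk_smul_left, smul_smul, ← hr2]
    congr 2
    field_simp
  refine ⟨r⁻¹ • n', T, ?_, ?_, ?_, xT, x'T, TA, TB, TC, ?_⟩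
  · rw [mk_smul_left, mk_smul_right]
    have h1 : mk n' n' = -r ^ 2 := by linarith
    rw [h1]
    field_simp
  · rw [mk_smul_left, nx, mul_zero]
  · rw [mk_smul_left, nx', mul_zero]
  · have heq : Set.EqOn C (refl (r⁻¹ • n')) ({x.1, x'.1, z.1} : Set V4) := by
      intro v hv
      simp only [Set.mem_insert_iff, Set.mem_singleton_iff] at hv
      rcases hv with rfl | rfl | rfl
      · rw [key, nx, Cx]; simp
      · rw [key, nx', Cx']; simp
      · rw [key]
        have h1 : 2 * mk n' z.1 / (-mk n' n') = -1 := by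
          rw [← nz]
          field_simp [nn.ne]
        rw [h1, neg_one_smul, hn']
        abel
    exact fun v hv => LinearMap.eqOn_span heq hv

end Pool.Agent.H36.ODG
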