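import Pool.Agent.H36.ODG.Bas

/-! (NSP) no common point of all mirrors (MP_397744_co). -/

set_option autoImplicit false

namespace Pool.Agent.H36.ODG

open Pool.Agent.H57.CP Pool.Agent.H39.TO Pool.Agent.H39.OD Pool.Agent.H50.ODG

theorem pf_NSP (hGGL : T_GGL) : T_NSP := by
  rintro x x' n0 n1 n2 h0 h1 h2 hP hinf ⟨O, o0, o1, o2⟩
  have hfix : ∀ G ∈ Gam n0 n1 n2, G O.1 = O.1 := by
    intro G hG
    unfold Gam at hG
    induction hG using Submonoid.closure_induction with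
    | mem g hg =>
      simp only [Set.mem_insert_iff, Set.mem_singleton_iff] at hg
      rcases hg with rfl | rfl | rfl
      · rw [refl_eq, mk_comm', o0]; simp
      · rw [refl_eq, mk_comm', o1]; simp
      · rw [refl_eq, mk_comm', o2]; simp
    | one => rfl
    | mul g h _ _ ig ih => rw [Module.End.mul_apply, ih, ig]
  have hfin : {G | G ∈ Gam n0 n1 n2}.Finite := by
    refine (hP O 1).subset fun G hG => ⟨hG, ?_⟩
    rw [hfix G hG, O.2.1]
  obtain ⟨hgg, -⟩ := hGGL n0 n1 n2 h0 h1 h2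
  apply hinf
  have hfin2 : ((fun G : Module.End ℝ V4 => G x.1) '' {G | G ∈ Gam n0 n1 n2} ∪
      (fun G : Module.End ℝ V4 => G x'.1) '' {G | G ∈ Gam n0 n1 n2}).Finite :=
    (hfin.image _).union (hfin.image _)
  refine Set.Finite.of_finite_image (f := fun p : H3 => p.1) (hfin2.subset ?_)
    (fun a _ b _ h => Subtype.ext h)
  rintro _ ⟨p, ⟨g, hg, hp⟩, rfl⟩
  obtain ⟨G, hG, hE⟩ := hgg g hg
  rcases hp with rfl | rfl
  · exact Or.inl ⟨G, hG, hE x⟩
  · exact Or.inr ⟨G, hG, hE x'⟩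

end Pool.Agent.H36.ODG
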